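import Mathlib

/-!
# An embedding of the propositional ontology L1 into Grzegorczyk's logic

With `F(x,y) = x ∧ ((y ∧ □(x ≡ y)) ∨ (¬y ∧ ◇(x ∧ y)))` the translation `t_F` embeds `L₁` in `Grz`.
-/

namespace Pool.Agent.Results.MP_36ff06_lc.EmbedGrz

/-! ### The logic L1 -/

/-- Formulas of `L₁`: atoms `ε a b` for name variables `a, b` (natural numbers), negation and
disjunction. -/
inductive Fm : Type
  | eps (a b : ℕ) : Fm
  | neg (φ : Fm) : Fm
  | or (φ ψ : Fm) : Fm

/-- Implication as an abbreviation. -/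
def Fm.imp (φ ψ : Fm) : Fm := (φ.neg).or ψ

/-- Conjunction as an abbreviation. -/
def Fm.and (φ ψ : Fm) : Fm := ((φ.neg).or ψ.neg).neg

/-- Classical evaluation of a formula of `L₁` under an assignment of truth values to the atoms. -/
def Fm.eval (v : ℕ → ℕ → Prop) : Fm → Prop
  | .eps a b => v a b
  | .neg φ => ¬ φ.eval v
  | .or φ ψ => φ.eval v ∨ ψ.eval v

/-- `Ax1`: `ε a b ⊃ ε a a`. -/
def ax1 (a b : ℕ) : Fm := (Fm.eps a b).imp (Fm.eps a a)

/-- `Ax2`: `ε a b ∧ ε b c ⊃ ε a c`. -/
def ax2 (a b c : ℕ) : Fm := ((Fm.eps a b).and (Fm.eps b c)).imp (Fm.eps a c)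

/-- `Ax3`: `ε a b ∧ ε b c ⊃ ε b a`. -/
def ax3 (a b c : ℕ) : Fm := ((Fm.eps a b).and (Fm.eps b c)).imp (Fm.eps b a)

/-- Provability in `L₁`: tautologies, `Ax1`, `Ax2`, `Ax3`, modus ponens. -/
inductive L1 : Fm → Prop
  | taut (φ : Fm) (h : ∀ v : ℕ → ℕ → Prop, φ.eval v) : L1 φ
  | ax1 (a b : ℕ) : L1 (ax1 a b)
  | ax2 (a b c : ℕ) : L1 (ax2 a b c)
  | ax3 (a b c : ℕ) : L1 (ax3 a b c)
  | mp (φ ψ : Fm) (h : L1 (φ.imp ψ)) (h' : L1 φ) : L1 ψ

/-! ### Modal logic -/

/-- Modal formulas over the set `V` of propositional variables. -/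
inductive MF (V : Type) : Type
  | var (x : V) : MF V
  | neg (φ : MF V) : MF V
  | or (φ ψ : MF V) : MF V
  | box (φ : MF V) : MF V

namespace MF

variable {V W : Type}

/-- Implication as an abbreviation. -/
def imp (φ ψ : MF V) : MF V := (φ.neg).or ψ

/-- Conjunction as an abbreviation. -/
def and (φ ψ : MF V) : MF V := ((φ.neg).or ψ.neg).neg

/-- Equivalence as an abbreviation. -/
def iff (φ ψ : MF V) : MF V := (φ.imp ψ).and (ψ.imp φ)

/-- Possibility as an abbreviation. -/
def dia (φ : MF V) : MF V := (φ.neg).box.neg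

/-- Substitution of formulas for propositional variables. -/
def subst (σ : V → MF W) : MF V → MF W
  | .var x => σ x
  | .neg φ => (φ.subst σ).neg
  | .or φ ψ => (φ.subst σ).or (ψ.subst σ)
  | .box φ => (φ.subst σ).box

/-- Propositional evaluation: propositional variables and boxed formulas are treated as
atoms. -/
def peval (v : MF V → Prop) : MF V → Prop
  | .var x => v (.var x)
  | .neg φ => ¬ φ.peval v
  | .or φ ψ => φ.peval v ∨ ψ.peval v
  | .box φ => v (.box φ)

end MF

/-- Normal modal logics: sets of modal formulas containing all tautologies and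
`□(p ⊃ q) ⊃ (□p ⊃ □q)`, closed under modus ponens, necessitation and uniform substitution. -/
structure IsNormal (Λ : Set (MF ℕ)) : Prop where
  taut : ∀ φ : MF ℕ, (∀ v, φ.peval v) → φ ∈ Λ
  k : (((MF.var 0).imp (MF.var 1)).box.imp ((MF.var 0).box.imp (MF.var 1).box)) ∈ Λ
  mp : ∀ φ ψ : MF ℕ, φ.imp ψ ∈ Λ → φ ∈ Λ → ψ ∈ Λ
  nec : ∀ φ : MF ℕ, φ ∈ Λ → φ.box ∈ Λ
  subst : ∀ (φ : MF ℕ) (σ : ℕ → MF ℕ), φ ∈ Λ → φ.subst σ ∈ Λ

/-- The Grzegorczyk axiom `□(□(p ⊃ □p) ⊃ p) ⊃ p`. -/
def grzAx : MF ℕ :=
  ((((MF.var 0).imp (MF.var 0).box).box.imp (MF.var 0)).box).imp (MF.var 0)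

/-- `Grz` is the smallest normal modal logic containing the Grzegorczyk axiom. -/
def Grz : Set (MF ℕ) := {φ | ∀ Λ : Set (MF ℕ), IsNormal Λ → grzAx ∈ Λ → φ ∈ Λ}

/-- The translation `t_F` for a modal formula `F(x,y)` and a map `e`, `a ↦ p_a`, from name
variables to propositional variables. -/
def tr (F : MF (Fin 2)) (e : ℕ → ℕ) : Fm → MF ℕ
  | .eps a b => F.subst ![MF.var (e a), MF.var (e b)]
  | .neg φ => (tr F e φ).neg
  | .or φ ψ => (tr F e φ).or (tr F e ψ)

/-! ### The formula -/

/-- `x ∧ ((y ∧ □(x ≡ y)) ∨ (¬y ∧ ◇(x ∧ y)))`. -/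
def FF {V : Type} (x y : MF V) : MF V :=
  x.and ((y.and (x.iff y).box).or (y.neg.and (x.and y).dia))

/-- The modal formula `F(x,y)`. -/
def F : MF (Fin 2) := FF (MF.var 0) (MF.var 1)

theorem F_subst (x y : MF ℕ) : F.subst ![x, y] = FF x y := rfl

/-! ### Soundness -/

section Sound

variable {Λ : Set (MF ℕ)}

theorem box2 (h : IsNormal Λ) (A B C : MF ℕ) (ht : ∀ v, (A.imp (B.imp C)).peval v) :
    A.box.imp (B.box.imp C.box) ∈ Λ := by
  have kk : ∀ X Y : MF ℕ, ((X.imp Y).box.imp (X.box.imp Y.box)) ∈ Λ := by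
    intro X Y
    have := h.subst _ (fun n => if n = 0 then X else Y) h.k
    exact this
  have h1 : (A.imp (B.imp C)).box ∈ Λ := h.nec _ (h.taut _ ht)
  have h2 := h.mp _ _ (kk A (B.imp C)) h1
  have h3 := kk B C
  refine h.mp _ _ (h.mp _ _ (h.taut ((A.box.imp (B.imp C).box).imp
    (((B.imp C).box.imp (B.box.imp C.box)).imp (A.box.imp (B.box.imp C.box)))) ?_) h2) h3
  intro v
  simp only [MF.imp, MF.peval]
  tauto

theorem box1 (h : IsNormal Λ) (A B : MF ℕ) (ht : ∀ v, (A.imp B).peval v) :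
    A.box.imp B.box ∈ Λ := by
  have h1 := box2 h A A B (fun v => by
    have := ht v
    simp only [MF.imp, MF.peval] at this ⊢
    tauto)
  refine h.mp _ _ (h.taut _ ?_) h1
  intro v
  simp only [MF.imp, MF.peval]
  tauto

theorem sound (h : IsNormal Λ) (e : ℕ → ℕ) (φ : Fm) (hφ : L1 φ) : tr F e φ ∈ Λ := by
  induction hφ with
  | taut φ ht =>
    apply h.taut
    intro v
    have key : ∀ ψ : Fm, (tr F e ψ).peval v ↔
        ψ.eval fun a b => (F.subst ![MF.var (e a), MF.var (e b)]).peval v := by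
      intro ψ
      induction ψ with
      | eps a b => rfl
      | neg ψ ih => simp only [tr, MF.peval, Fm.eval, ih]
      | or ψ χ ih1 ih2 => simp only [tr, MF.peval, Fm.eval, ih1, ih2]
    exact (key φ).2 (ht _)
  | ax1 a b =>
    have h1 : ((MF.var (e a)).iff (MF.var (e a))).box ∈ Λ := by
      apply h.nec
      apply h.taut
      intro v
      simp only [MF.iff, MF.and, MF.imp, MF.peval]
      tauto
    refine h.mp _ _ (h.taut _ ?_) h1
    intro v
    simp only [tr, ax1, Fm.imp, F_subst, FF, MF.imp, MF.dia, MF.and, MF.peval]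
    tauto
  | ax2 a b c =>
    have h1 : ((MF.var (e a)).iff (MF.var (e b))).box.imp
        (((MF.var (e b)).iff (MF.var (e c))).box.imp
        ((MF.var (e a)).iff (MF.var (e c))).box) ∈ Λ := by
      apply box2 h
      intro v
      simp only [MF.iff, MF.and, MF.imp, MF.peval]
      tauto
    have h2 : ((MF.var (e a)).iff (MF.var (e b))).box.imp
        (((MF.var (e a)).and (MF.var (e c))).neg.box.imp
        ((MF.var (e b)).and (MF.var (e c))).neg.box) ∈ Λ := by
      apply box2 h
      intro v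
      simp only [MF.iff, MF.and, MF.imp, MF.peval]
      tauto
    refine h.mp _ _ (h.mp _ _ (h.taut _ ?_) h1) h2
    intro v
    simp only [tr, ax2, Fm.imp, Fm.and, F_subst, FF, MF.imp, MF.dia, MF.and, MF.peval]
    tauto
  | ax3 a b c =>
    have h1 : ((MF.var (e a)).iff (MF.var (e b))).box.imp
        ((MF.var (e b)).iff (MF.var (e a))).box ∈ Λ := by
      apply box1 h
      intro v
      simp only [MF.iff, MF.and, MF.imp, MF.peval]
      tauto
    refine h.mp _ _ (h.taut _ ?_) h1
    intro v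
    simp only [tr, ax3, Fm.imp, Fm.and, F_subst, FF, MF.imp, MF.dia, MF.and, MF.peval]
    tauto
  | mp φ ψ _ _ ih1 ih2 => exact h.mp _ _ ih1 ih2

end Sound

/-! ### Completeness of L1 with respect to its relational models -/

/-- The relations satisfying the axioms. -/
structure Good (v : ℕ → ℕ → Prop) : Prop where
  a1 : ∀ a b, v a b → v a a
  a2 : ∀ a b c, v a b → v b c → v a c
  a3 : ∀ a b c, v a b → v b c → v b a

/-- A bound for the names in a formula. -/
def bd : Fm → ℕ
  | .eps a b => max a b + 1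
  | .neg φ => bd φ
  | .or φ ψ => max (bd φ) (bd ψ)

theorem eval_congr (n : ℕ) (v w : ℕ → ℕ → Prop) (h : ∀ a b, a < n → b < n → (v a b ↔ w a b)) :
    ∀ φ : Fm, bd φ ≤ n → (φ.eval v ↔ φ.eval w)
  | .eps a b, hb => by
      simp only [bd] at hb
      exact h a b (by omega) (by omega)
  | .neg φ, hb => by
      simp only [bd] at hb
      simp only [Fm.eval, eval_congr n v w h φ hb]
  | .or φ ψ, hb => by
      simp only [bd] at hb
      simp only [Fm.eval, eval_congr n v w h φ (by omega), eval_congr n v w h ψ (by omega)]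

/-- The finitely many axiom instances over the names below `n`. -/
def inst (n : ℕ) : List Fm :=
  (List.range n).flatMap fun a => (List.range n).flatMap fun b => (List.range n).flatMap fun c =>
    [ax1 a b, ax2 a b c, ax3 a b c]

theorem mem_inst (n : ℕ) (A : Fm) : A ∈ inst n ↔
    ∃ a < n, ∃ b < n, ∃ c < n, A = ax1 a b ∨ A = ax2 a b c ∨ A = ax3 a b c := by
  simp [inst, List.mem_flatMap]

theorem eval_foldr (v : ℕ → ℕ → Prop) (φ : Fm) (l : List Fm) :
    (l.foldr Fm.imp φ).eval v ↔ ((∀ A ∈ l, A.eval v) → φ.eval v) := by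
  induction l with
  | nil => simp
  | cons A l ih =>
    simp only [List.foldr_cons, Fm.imp, Fm.eval, List.mem_cons, forall_eq_or_imp] at ih ⊢
    rw [ih]
    tauto

theorem L1_foldr (φ : Fm) (l : List Fm) (h : L1 (l.foldr Fm.imp φ)) (hl : ∀ A ∈ l, L1 A) :
    L1 φ := by
  induction l with
  | nil => exact h
  | cons A l ih =>
    exact ih (L1.mp _ _ h (hl A List.mem_cons_self)) fun B hB => hl B (List.mem_cons_of_mem _ hB)

theorem complete (φ : Fm) (h : ∀ v, Good v → φ.eval v) : L1 φ := by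
  refine L1_foldr φ (inst (bd φ)) (L1.taut _ fun v => ?_) ?_
  · rw [eval_foldr]
    intro hv
    let w : ℕ → ℕ → Prop := fun a b => a < bd φ ∧ b < bd φ ∧ v a b
    have i1 : ∀ a b, a < bd φ → b < bd φ → v a b → v a a := by
      intro a b ha hb h1
      have := hv (ax1 a b) ((mem_inst _ _).2 ⟨a, ha, b, hb, a, ha, Or.inl rfl⟩)
      simp only [ax1, Fm.imp, Fm.eval] at this
      tauto
    have i2 : ∀ a b c, a < bd φ → b < bd φ → c < bd φ → v a b → v b c → v a c := by
      intro a b c ha hb hc h1 h2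
      have := hv (ax2 a b c) ((mem_inst _ _).2 ⟨a, ha, b, hb, c, hc, Or.inr (Or.inl rfl)⟩)
      simp only [ax2, Fm.imp, Fm.and, Fm.eval] at this
      tauto
    have i3 : ∀ a b c, a < bd φ → b < bd φ → c < bd φ → v a b → v b c → v b a := by
      intro a b c ha hb hc h1 h2
      have := hv (ax3 a b c) ((mem_inst _ _).2 ⟨a, ha, b, hb, c, hc, Or.inr (Or.inr rfl)⟩)
      simp only [ax3, Fm.imp, Fm.and, Fm.eval] at this
      tauto
    have hw : Good w := by
      refine ⟨?_, ?_, ?_⟩
      · rintro a b ⟨ha, hb, h1⟩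
        exact ⟨ha, ha, i1 a b ha hb h1⟩
      · rintro a b c ⟨ha, hb, h1⟩ ⟨_, hc, h2⟩
        exact ⟨ha, hc, i2 a b c ha hb hc h1 h2⟩
      · rintro a b c ⟨ha, hb, h1⟩ ⟨_, hc, h2⟩
        exact ⟨hb, ha, i3 a b c ha hb hc h1 h2⟩
    refine (eval_congr (bd φ) v w ?_ φ (le_refl _)).2 (h w hw)
    intro a b ha hb
    exact ⟨fun h1 => ⟨ha, hb, h1⟩, fun h1 => h1.2.2⟩
  · intro A hA
    obtain ⟨a, _, b, _, c, _, rfl | rfl | rfl⟩ := (mem_inst _ _).1 hA
    · exact L1.ax1 _ _
    · exact L1.ax2 _ _ _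
    · exact L1.ax3 _ _ _

/-! ### Reflexive forks -/

/-- The worlds: the root `none` and the leaves `some i`. -/
abbrev World : Type := Option (ℕ ⊕ ℕ × ℕ)

/-- Accessibility in the reflexive fork. -/
def acc (x y : World) : Prop := x = none ∨ x = y

/-- Truth in the fork. -/
def tru (V : World → ℕ → Prop) : World → MF ℕ → Prop
  | w, .var x => V w x
  | w, .neg φ => ¬ tru V w φ
  | w, .or φ ψ => tru V w φ ∨ tru V w ψ
  | w, .box φ => ∀ w', acc w w' → tru V w' φ

/-- The logic of the fork. -/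
def LogFork : Set (MF ℕ) := {φ | ∀ V w, tru V w φ}

theorem tru_subst (V : World → ℕ → Prop) (σ : ℕ → MF ℕ) :
    ∀ (φ : MF ℕ) (w : World), tru V w (φ.subst σ) ↔ tru (fun w x => tru V w (σ x)) w φ
  | .var x, w => Iff.rfl
  | .neg φ, w => by simp only [MF.subst, tru, tru_subst V σ φ w]
  | .or φ ψ, w => by simp only [MF.subst, tru, tru_subst V σ φ w, tru_subst V σ ψ w]
  | .box φ, w => by simp only [MF.subst, tru, tru_subst V σ φ]

theorem tru_peval (V : World → ℕ → Prop) (w : World) :
    ∀ φ : MF ℕ, tru V w φ ↔ φ.peval (fun ψ => tru V w ψ)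
  | .var x => Iff.rfl
  | .neg φ => by simp only [tru, MF.peval, tru_peval V w φ]
  | .or φ ψ => by simp only [tru, MF.peval, tru_peval V w φ, tru_peval V w ψ]
  | .box φ => Iff.rfl

theorem normal_fork : IsNormal LogFork := by
  refine ⟨?_, ?_, ?_, ?_, ?_⟩
  · intro φ h V w
    rw [tru_peval]
    exact h _
  · intro V w
    simp only [MF.imp, tru]
    by_contra hc
    push Not at hc
    obtain ⟨h1, h2, w', hw', h3⟩ := hc
    rcases h1 w' hw' with h4 | h4
    · exact h4 (h2 w' hw')
    · exact h3 h4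
  · intro φ ψ h1 h2 V w
    have := h1 V w
    simp only [MF.imp, tru] at this
    rcases this with h | h
    · exact absurd (h2 V w) h
    · exact h
  · intro φ h V w w' _
    exact h V w'
  · intro φ σ h V w
    rw [tru_subst]
    exact h _ _

theorem grz_fork : grzAx ∈ LogFork := by
  intro V w
  have hleaf : ∀ (i : ℕ ⊕ ℕ × ℕ) (w' : World), acc (some i) w' → w' = some i := by
    intro i w' h
    rcases h with h | h
    · cases h
    · exact h.symm
  simp only [grzAx, MF.imp, tru]
  by_contra hc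
  push Not at hc
  obtain ⟨h1, h2⟩ := hc
  rcases h1 w (Or.inr rfl) with h3 | h3
  · obtain ⟨w', hw', h4, w'', hw'', h5⟩ := h3
    rcases w' with _ | i
    · rcases hw' with h | h
      · subst h
        exact h2 h4
      · subst h
        exact h2 h4
    · rw [hleaf i w'' hw''] at h5
      exact h5 h4
  · exact h2 h3

/-! ### Faithfulness -/

/-- The valuation on the fork given by a relation `v`. -/
def val (e : ℕ → ℕ) (v : ℕ → ℕ → Prop) : World → ℕ → Prop
  | none, n => ∃ c, e c = n ∧ v c c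
  | some (Sum.inl a), n => ∃ c, e c = n ∧ v a c ∧ v c c
  | some (Sum.inr (a, b)), n => ∃ c, e c = n ∧ v a c ∧ (v c c ∨ c = b)

theorem tru_tr (e : ℕ → ℕ) (he : Function.Injective e) (v : ℕ → ℕ → Prop) (hv : Good v) :
    ∀ φ : Fm, tru (val e v) none (tr F e φ) ↔ φ.eval v
  | .neg φ => by simp only [tr, tru, Fm.eval, tru_tr e he v hv φ]
  | .or φ ψ => by simp only [tr, tru, Fm.eval, tru_tr e he v hv φ, tru_tr e he v hv ψ]
  | .eps a b => by
      have e1 : ∀ c, val e v none (e c) ↔ v c c := by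
        intro c
        constructor
        · rintro ⟨c', h, h'⟩
          rwa [← he h]
        · intro h
          exact ⟨c, rfl, h⟩
      have e2 : ∀ a c, val e v (some (Sum.inl a)) (e c) ↔ v a c ∧ v c c := by
        intro a c
        constructor
        · rintro ⟨c', h, h'⟩
          rwa [← he h]
        · intro h
          exact ⟨c, rfl, h⟩
      have e3 : ∀ a b c, val e v (some (Sum.inr (a, b))) (e c) ↔ v a c ∧ (v c c ∨ c = b) := by
        intro a b c
        constructor
        · rintro ⟨c', h, h'⟩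
          rwa [← he h]
        · intro h
          exact ⟨c, rfl, h⟩
      simp only [tr, F_subst, FF, MF.dia, MF.iff, MF.and, MF.imp, tru, Fm.eval, e1]
      constructor
      · intro h
        push Not at h
        obtain ⟨haa, h⟩ := h
        rcases h with ⟨hbb, h⟩ | ⟨hbb, w', _, h1, h2⟩
        · have h3 := h (some (Sum.inl a)) (Or.inl rfl)
          simp only [e2] at h3
          have h4 := hv.a1
          tauto
        · rcases w' with _ | c | ⟨c, d⟩
          · rw [e1] at h2
            exact absurd h2 hbb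
          · rw [e2] at h2
            exact absurd h2.2 hbb
          · rw [e3] at h1 h2
            exact hv.a2 _ _ _ (hv.a3 _ _ _ h1.1 haa) h2.1
      · intro h
        have haa := hv.a1 _ _ h
        push Not
        refine ⟨haa, ?_⟩
        by_cases hbb : v b b
        · left
          have hba := hv.a3 _ _ _ h hbb
          refine ⟨hbb, ?_⟩
          intro w' _
          rcases w' with _ | c | ⟨c, d⟩
          · rw [e1, e1]
            tauto
          · rw [e2, e2]
            have h1 := hv.a2 c a b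
            have h2 := hv.a2 c b a
            tauto
          · rw [e3, e3]
            have h1 := hv.a2 c a b
            have h2 := hv.a2 c b a
            tauto
        · right
          refine ⟨hbb, some (Sum.inr (a, b)), Or.inl rfl, ?_, ?_⟩
          · rw [e3]
            exact ⟨haa, Or.inl haa⟩
          · rw [e3]
            exact ⟨h, Or.inr rfl⟩

/-- **`t_F` embeds `L₁` in `Grz` for some modal formula `F(x,y)`**: there is a modal formula `F`
in two propositional variables such that for every injective map `a ↦ p_a` from name variables to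
propositional variables, `⊢ φ` in `L₁` iff `⊢ t_F(φ)` in `Grz`, for every formula `φ` of `L₁`. -/
theorem result : ∃ F : MF (Fin 2), ∀ e : ℕ → ℕ, Function.Injective e →
    ∀ φ : Fm, L1 φ ↔ tr F e φ ∈ Grz := by
  refine ⟨F, fun e he φ => ⟨fun h Λ hΛ _ => sound hΛ e φ h, fun h => ?_⟩⟩
  apply complete
  intro v hv
  rw [← tru_tr e he v hv]
  exact h LogFork normal_fork grz_fork _ _

end Pool.Agent.Results.MP_36ff06_lc.EmbedGrz
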